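import Pool.Agent.W990.EB.Stm

/-!
# EB-LOW: lower bound for the even difference form
-/

set_option autoImplicit false
open Finset

namespace Pool.Agent.W509.EB

open Pool.Agent.W990.EB

theorem qe_bound {D N : ℝ} (h : |D| ≤ N) : |qe D N| ≤ 72 * Real.exp (N / 2) := by
  have hN : 0 ≤ N := (abs_nonneg D).trans h
  have hD : D ^ 2 ≤ N ^ 2 := by
    rw [← sq_abs D]
    exact pow_le_pow_left₀ (abs_nonneg D) h 2
  have hD0 : 0 ≤ D ^ 2 := sq_nonneg D
  obtain ⟨x, hx⟩ : ∃ x : ℝ, x = N / 2 := ⟨_, rfl⟩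
  have hx0 : 0 ≤ x := by rw [hx]; positivity
  have h0 : (1 : ℝ) ≤ Real.exp x := Real.one_le_exp hx0
  have h1 := Real.pow_div_factorial_le_exp x hx0 1
  have h2 := Real.pow_div_factorial_le_exp x hx0 2
  have h3 := Real.pow_div_factorial_le_exp x hx0 3
  have e1 : ((Nat.factorial 1 : ℕ) : ℝ) = 1 := by norm_num
  have e2 : ((Nat.factorial 2 : ℕ) : ℝ) = 2 := by norm_num [Nat.factorial]
  have e3 : ((Nat.factorial 3 : ℕ) : ℝ) = 6 := by norm_num [Nat.factorial]
  rw [e1] at h1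
  rw [e2] at h2
  rw [e3] at h3
  have hNx : N = 2 * x := by rw [hx]; ring
  have hu : 0 ≤ N ^ 2 - D ^ 2 := by linarith
  have hu2 : N ^ 2 - D ^ 2 ≤ N ^ 2 := by linarith
  have hNu : 0 ≤ N * (N ^ 2 - D ^ 2) := mul_nonneg hN hu
  have hNu2 : N * (N ^ 2 - D ^ 2) ≤ N * N ^ 2 := mul_le_mul_of_nonneg_left hu2 hN
  have hb : |qe D N| ≤ 13 / 4 + 2 * N + 2 * N ^ 2 + N * N ^ 2 := by
    unfold qe
    rw [abs_le]
    constructor
    · nlinarith [sq_nonneg N]
    · nlinarith [sq_nonneg N]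
  refine hb.trans ?_
  rw [← hx, hNx]
  have h4 : (2 * x) * (2 * x) ^ 2 = 48 * (x ^ 3 / 6) := by ring
  have h5 : 2 * (2 * x) ^ 2 = 16 * (x ^ 2 / 2) := by ring
  have h6 : 2 * (2 * x) = 4 * (x ^ 1 / 1) := by ring
  rw [h4, h5, h6]
  linarith

theorem low (hj : S_JD) (h3 : S_V3) (hq : S_Q4) : S_LOW := by
  intro R
  refine ⟨12 * 72 ^ 2 * (R : ℝ) ^ 2, by positivity, ?_⟩
  intro K hK S hS t ht ht1
  obtain ⟨m, hm⟩ : ∃ m : ℕ × ℕ → ℤ, m = fun x : ℕ × ℕ => (x.1 : ℤ) - (x.2 : ℤ) := ⟨_, rfl⟩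
  obtain ⟨U, hU⟩ : ∃ U : ℕ × ℕ → ℝ, U = fun x : ℕ × ℕ =>
    qe (t * x.1 - t * x.2) (t * x.1 + t * x.2) * Real.exp (-(t * (x.1 + x.2))) := ⟨_, rfl⟩
  have e1 : J K S pe t = W K (S ×ˢ S) m U := by
    rw [hm, hU, ← hj K S t qe]
    rfl
  have e2 : fib (S ×ˢ S) m U 0 = G0 S t := by
    unfold fib G0
    rw [sum_product]
    refine sum_congr rfl fun a ha => ?_
    have h4 : ∀ b ∈ S, (if m (a, b) = 0 then U (a, b) else 0) = if b = a then U (a, b) else 0 := by
      intro b _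
      have h5 : m (a, b) = 0 ↔ b = a := by
        rw [hm]
        simp only
        omega
      simp only [h5]
    rw [sum_congr rfl h4, sum_ite_eq' S a, if_pos ha, hU]
    simp only
    rw [show t * (a : ℝ) - t * a = 0 by ring, show t * (a : ℝ) + t * a = 2 * t * a by ring,
      show t * ((a : ℝ) + a) = 2 * t * a by ring]
  have hUb : ∀ x : ℕ × ℕ, |U x| ≤ 72 * Real.exp (-(t * (x.1 + x.2) / 2)) := by
    intro x
    have hx1 : (0 : ℝ) ≤ x.1 := Nat.cast_nonneg _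
    have hx2 : (0 : ℝ) ≤ x.2 := Nat.cast_nonneg _
    have h4 : |t * (x.1 : ℝ) - t * x.2| ≤ t * x.1 + t * x.2 := by
      rw [abs_le]
      constructor
      · nlinarith
      · nlinarith
    rw [hU]
    simp only
    rw [abs_mul, abs_of_pos (Real.exp_pos _)]
    calc |qe (t * x.1 - t * x.2) (t * x.1 + t * x.2)| * Real.exp (-(t * (x.1 + x.2))) ≤
        72 * Real.exp ((t * x.1 + t * x.2) / 2) * Real.exp (-(t * (x.1 + x.2))) :=
          mul_le_mul_of_nonneg_right (qe_bound h4) (Real.exp_pos _).le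
      _ = 72 * Real.exp (-(t * (x.1 + x.2) / 2)) := by
          rw [mul_assoc, ← Real.exp_add]
          congr 2
          ring
  have hEn : En (S ×ˢ S) m U ≤ 72 ^ 2 * ((R : ℝ) ^ 2 * (2 * (0 : ℕ) + 1) * (3 / t)) := by
    have h4 : En (S ×ˢ S) m U ≤ 72 ^ 2 * ∑ a ∈ S, ∑ b ∈ S, ∑ c ∈ S, ∑ d ∈ S,
        (if |(a : ℤ) + d - b - c| ≤ ((0 : ℕ) : ℤ) then
          Real.exp (-(t * (a + b + c + d) / 2)) else 0) := by
      unfold En
      rw [sum_product, mul_sum]
      refine sum_le_sum fun a _ => ?_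
      rw [mul_sum]
      refine sum_le_sum fun b _ => ?_
      rw [sum_product, mul_sum]
      refine sum_le_sum fun c _ => ?_
      rw [mul_sum]
      refine sum_le_sum fun d _ => ?_
      have h5 : |(a : ℤ) + d - b - c| ≤ ((0 : ℕ) : ℤ) ↔ m (a, b) = m (c, d) := by
        rw [hm]
        simp only
        rw [Nat.cast_zero, abs_nonpos_iff]
        omega
      by_cases h6 : m (a, b) = m (c, d)
      · rw [if_pos h6, if_pos (h5.2 h6)]
        calc U (a, b) * U (c, d) ≤ |U (a, b) * U (c, d)| := le_abs_self _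
          _ = |U (a, b)| * |U (c, d)| := abs_mul _ _
          _ ≤ (72 * Real.exp (-(t * (a + b) / 2))) * (72 * Real.exp (-(t * (c + d) / 2))) :=
              mul_le_mul (hUb (a, b)) (hUb (c, d)) (abs_nonneg _) (by positivity)
          _ = 72 ^ 2 * Real.exp (-(t * (a + b + c + d) / 2)) := by
              rw [show (72 * Real.exp (-(t * ((a : ℝ) + b) / 2))) *
                (72 * Real.exp (-(t * ((c : ℝ) + d) / 2))) = 72 ^ 2 *
                (Real.exp (-(t * ((a : ℝ) + b) / 2)) * Real.exp (-(t * ((c : ℝ) + d) / 2))) by ring,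
                ← Real.exp_add]
              congr 2
              ring
      · rw [if_neg h6, if_neg (fun h => h6 (h5.1 h)), mul_zero]
    exact h4.trans (mul_le_mul_of_nonneg_left (hq 0 R S t hS ht ht1) (by norm_num))
  have h7 := h3 (ℕ × ℕ) K (S ×ˢ S) m U hK
  rw [e2, ← e1] at h7
  refine le_trans ?_ h7
  have hK1 : (1 : ℝ) ≤ K := by exact_mod_cast hK
  have hsK : 0 < Real.sqrt K := Real.sqrt_pos.2 (by linarith)
  have h8 : 4 / Real.sqrt K * En (S ×ˢ S) m U ≤ 12 * 72 ^ 2 * (R : ℝ) ^ 2 / (Real.sqrt K * t) := by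
    calc 4 / Real.sqrt K * En (S ×ˢ S) m U ≤
        4 / Real.sqrt K * (72 ^ 2 * ((R : ℝ) ^ 2 * (2 * (0 : ℕ) + 1) * (3 / t))) :=
          mul_le_mul_of_nonneg_left hEn (by positivity)
      _ = 12 * 72 ^ 2 * (R : ℝ) ^ 2 / (Real.sqrt K * t) := by
          rw [Nat.cast_zero]
          field_simp
          ring
  linarith

end Pool.Agent.W509.EB
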